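import Pool.Agent.Helper48.OD.St
import Pool.Agent.Helper84.GD.M_SD

/-!
Project OD (MP_b3ce06_al), module SDX.
-/

set_option autoImplicit false

namespace Pool.Agent.Helper88.OD

open Pool.Agent.Helper43.GD Pool.Agent.Helper48.OD

theorem hSDX : StSDX := by
  intro L A _ _ s x ε hw1 hwx hε hF h2 h3
  have hε2 : ε ^ 2 = ε := by rw [sq]; exact hε
  have hmain := hF A (Pool.Agent.Helper84.GD.qs s hε2) ?_
    (Pool.Agent.Helper84.GD.qs_weyl s hε2 h2 h3 hwx)
  · have e : Subgroup.closure (Set.range (fun a => s.E (ε * a)) ∪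
        Set.range (fun a => s.F (ε * a))) = (Pool.Agent.Helper84.GD.qs s hε2).gp := by
      unfold Sys.gp
      have e1 : Set.range (fun a => s.E (ε * a)) =
          Set.range (Pool.Agent.Helper84.GD.qs s hε2).E := by
        ext g
        constructor
        · rintro ⟨a, rfl⟩
          exact ⟨Ideal.Quotient.mk _ a, Pool.Agent.Helper84.GD.qs_E s hε2 a⟩
        · rintro ⟨y, rfl⟩
          exact ⟨Pool.Agent.Helper84.GD.rp _ y, rfl⟩
      have e2 : Set.range (fun a => s.F (ε * a)) =
          Set.range (Pool.Agent.Helper84.GD.qs s hε2).F := by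
        ext g
        constructor
        · rintro ⟨a, rfl⟩
          exact ⟨Ideal.Quotient.mk _ a, Pool.Agent.Helper84.GD.qs_F s hε2 a⟩
        · rintro ⟨y, rfl⟩
          exact ⟨Pool.Agent.Helper84.GD.rp _ y, rfl⟩
      rw [e1, e2]
    rw [e]
    exact hmain
  · have := Pool.Agent.Helper84.GD.qs_weyl s hε2 h2 h3 hw1
    rwa [map_one] at this

end Pool.Agent.Helper88.OD
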